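import Pool.Agent.H31.Thr.T1_Complete
import Pool.Agent.H98.Ind

/-!
Transfer of integrality (`Vir`) and positivity (`Pos`).
-/

open Finset

open scoped ComplexOrder

namespace Pool.Agent.H31.Thr

open Pool.Agent.H7.HB Pool.Agent.H7.Artin Pool.Agent.H72.Sol

set_option linter.unusedSectionVars false

variable {G : Type} [Group G]

/-- the pairing of two characters is a dimension -/
theorem ipF_char_char [Finite G] {V W : Type} [AddCommGroup V] [Module ℂ V]
    [FiniteDimensional ℂ V] [AddCommGroup W] [Module ℂ W] [FiniteDimensional ℂ W]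
    (ρ : Representation ℂ G V) (σ : Representation ℂ G W) :
    ∃ n : ℕ, ipF ρ.character σ.character = n := by
  classical
  let _ : Fintype G := Fintype.ofFinite G
  have h1 := Representation.card_inv_mul_sum_char_mul_char_eq_finrank (k := ℂ) σ ρ
  refine ⟨Module.finrank ℂ (Representation.IntertwiningMap σ ρ), ?_⟩
  rw [ipF_eq]
  exact h1

/-- characters are integral -/
theorem vir_character [Finite G] {V : Type} [AddCommGroup V] [Module ℂ V]
    [FiniteDimensional ℂ V] (ρ : Representation ℂ G V) : Vir ρ.character := by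
  intro W _ _ _ σ
  obtain ⟨n, hn⟩ := ipF_char_char ρ σ
  exact ⟨n, by rw [hn]; simp⟩

theorem Vir.sub [Finite G] {θ θ' : G → ℂ} (h : Vir θ) (h' : Vir θ') :
    Vir (fun g => θ g - θ' g) := by
  classical
  intro V _ _ _ ρ
  obtain ⟨n, hn⟩ := h V ρ
  obtain ⟨m, hm⟩ := h' V ρ
  refine ⟨n - m, ?_⟩
  let _ : Fintype G := Fintype.ofFinite G
  rw [ipF_eq] at hn hm ⊢
  push_cast
  rw [← hn, ← hm]
  unfold ip
  rw [← mul_sub, ← Finset.sum_sub_distrib]
  simp_rw [sub_mul]

theorem Vir.defl [Finite G] {θ : G → ℂ} (h : Vir θ) {Q : Type} [Group Q] [Finite Q] {π : G →* Q}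
    (hπ : Function.Surjective π) : Vir (defl π θ) := by
  intro V _ _ _ ρ
  rw [ipF_defl hπ]
  exact h V (ρ.comp π)

theorem Vir.part [Finite G] {θ : G → ℂ} (h : Vir θ) {A : Type} [CommGroup A] [Fintype A]
    {i : A →* G} {κ : A →* ℂˣ} (hinv : Inv i κ) : Vir (part i κ θ) := by
  intro V _ _ _ ρ
  rw [ipF_part hinv]
  exact h _ (isoRep hinv ρ)

/-- restriction to a subgroup -/
theorem Vir.restr [Finite G] {θ : G → ℂ} (hc : ∀ g x, θ (g * x * g⁻¹) = θ x) (h : Vir θ)
    (H : Subgroup G) : Vir (fun x : H => θ x) := by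
  intro V _ _ _ ρ
  rw [← Pool.Agent.H98.Ind.ipF_indFn hc]
  obtain ⟨W, _, _, _, τ, hτ⟩ := Pool.Agent.H98.Ind.exists_ind H ρ
  rw [← hτ]
  exact h W τ

/-- inflation along a surjective homomorphism -/
theorem Vir.infl [Finite G] {θ : G → ℂ} (h : Vir θ) {H : Type} [Group H] [Finite H] {f : H →* G}
    (hf : Function.Surjective f) : Vir (fun x => θ (f x)) := by
  classical
  intro V _ _ _ ρ
  let N : Subgroup H := f.ker
  let _ : Fintype N := Fintype.ofFinite N
  have hN : N.Normal := inferInstanceAs f.ker.Normal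
  have hinv : Inv N.subtype 1 := fun g a => ⟨⟨g * a * g⁻¹, hN.conj_mem a a.2 g⟩, rfl, rfl⟩
  have hθ : ∀ (a : N) (g : H), θ (f (N.subtype a * g)) = θ (f g) := by
    intro a g
    have h1 : f (N.subtype a) = 1 := a.2
    rw [map_mul, h1, one_mul]
  rw [← ipF_iso_one (θ := fun x => θ (f x)) hinv hθ ρ]
  have hker : ∀ n ∈ N, isoRep hinv ρ n = 1 := by
    intro n hn
    ext v
    rw [isoRep_apply]
    have := v.2 ⟨n, hn⟩
    rw [MonoidHom.one_apply, Units.val_one, one_smul] at this
    exact this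
  let ρ' : Representation ℂ (H ⧸ N) (isoSub N.subtype 1 ρ) :=
    QuotientGroup.lift N (isoRep hinv ρ) hker
  let e : H ⧸ f.ker ≃* G := QuotientGroup.quotientKerEquivOfSurjective f hf
  let σ : Representation ℂ G (isoSub N.subtype 1 ρ) := ρ'.comp e.symm.toMonoidHom
  have hσ : (isoRep hinv ρ).character = fun x => σ.character (f x) := by
    funext x
    have h1 : e.symm (f x) = QuotientGroup.mk x := by
      rw [MulEquiv.symm_apply_eq]
      rfl
    have h2 : σ (f x) = isoRep hinv ρ x := by
      change ρ' (e.symm (f x)) = _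
      rw [h1]
      rfl
    unfold Representation.character
    rw [h2]
  rw [hσ, ← ipF_defl hf]
  have hd : Pool.Agent.H72.Sol.defl f (fun x => θ (f x)) = θ := by
    funext q
    let _ : Fintype H := Fintype.ofFinite H
    rw [defl_eq]
    have h3 : ∀ g : H, (if f g = q then θ (f g) else 0) = if f g = q then θ q else 0 := by
      intro g
      by_cases hg : f g = q
      · rw [if_pos hg, if_pos hg, hg]
      · rw [if_neg hg, if_neg hg]
    simp_rw [h3]
    rw [← Finset.sum_filter, Finset.sum_const, card_fiber f hf q, nsmul_eq_mul, ← mul_assoc,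
      inv_mul_cancel₀ (ker_cne f), one_mul]
  rw [hd]
  exact h _ σ

/-- restriction along a homomorphism -/
theorem Vir.comp [Finite G] {θ : G → ℂ} (hc : ∀ g x, θ (g * x * g⁻¹) = θ x) (h : Vir θ)
    {H : Type} [Group H] [Finite H] (f : H →* G) : Vir (fun x => θ (f x)) :=
  Vir.infl (f := f.rangeRestrict) (Vir.restr hc h f.range) f.rangeRestrict_surjective

/-- characters are Heilbronn class functions -/
theorem heil_character [Finite G] {V : Type} [AddCommGroup V] [Module ℂ V]
    [FiniteDimensional ℂ V] (ρ : Representation ℂ G V) : Heil ρ.character where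
  conj g x := ρ.char_conj x g
  coeff K _ _ φ ψ := by
    classical
    let σ : Representation ℂ K V :=
      { toFun := fun k => (((ψ k)⁻¹ : ℂˣ) : ℂ) • ρ (φ k)
        map_one' := by simp
        map_mul' := by
          intro a b
          rw [map_mul, map_mul, map_mul, mul_inv, Units.val_mul, smul_mul_smul_comm] }
    have h1 := Representation.card_inv_mul_sum_char_eq_finrank σ
    refine ⟨Module.finrank ℂ σ.invariants, ?_⟩
    rw [← h1, Nat.card_eq_fintype_card]
    have hK : (Fintype.card K : ℂ) ≠ 0 := by exact_mod_cast Fintype.card_ne_zero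
    have h2 : ∀ k, σ.character k = ρ.character (φ k) * (((ψ k)⁻¹ : ℂˣ) : ℂ) := by
      intro k
      unfold Representation.character
      change LinearMap.trace ℂ V ((((ψ k)⁻¹ : ℂˣ) : ℂ) • ρ (φ k)) = _
      rw [map_smul, smul_eq_mul, mul_comm]
    simp_rw [h2]
    field_simp

/-- The structure of a minimal group, with integrality and positivity on the proper subgroups
containing the centre. -/
theorem minimal_data' [Finite G] {θ : G → ℂ} (h : Heil θ) (hv : Vir θ) {r : ℕ} (hr : θ 1 = r)
    (hsub : ∀ T : Subgroup G, T ≠ ⊤ → Pos (fun t : T => θ t))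
    (hquot : ∀ (N : Subgroup G) [N.Normal], N ≠ ⊥ → Pos (defl (QuotientGroup.mk' N) θ))
    (hnp : ¬ Pos θ) :
    ∃ κ : Subgroup.center G →* ℂˣ, Function.Injective κ ∧ ∃ ϑ : G → ℂ, Heil ϑ ∧ Vir ϑ ∧
      (∀ (z : Subgroup.center G) x, ϑ (z * x) = ((κ z : ℂˣ) : ℂ) * ϑ x) ∧ ¬ Pos ϑ ∧
      (∀ T : Subgroup G, T ≠ ⊤ → Subgroup.center G ≤ T → Pos (fun t : T => ϑ t)) ∧
      ∃ e : ℕ, ϑ 1 = e ∧ e ≠ 0 ∧ e ≤ r := by
  classical
  let _ : CommGroup (Subgroup.center G) := Pool.Agent.H98.GL.commGrp (Subgroup.center G)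
    (fun x hx y _ => (Subgroup.mem_center_iff.1 hx y).symm)
  let _ : Fintype (Subgroup.center G) := Fintype.ofFinite _
  have hcomm : ∀ (a : Subgroup.center G) x, (Subgroup.center G).subtype a * x
      = x * (Subgroup.center G).subtype a := by
    intro a x
    exact (Subgroup.mem_center_iff.1 a.2 x).symm
  obtain ⟨κ, hκ1, hκ2, hκ3⟩ := exists_faithful_part (A := Subgroup.center G) h.conj hsub hquot
    hnp (Subgroup.center G).subtype (Subgroup.center G).subtype_injective (fun g a => ⟨a, by
      rw [← hcomm, mul_inv_cancel_right]⟩)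
  have hpart : Heil (part (Subgroup.center G).subtype κ θ) :=
    Pool.Agent.H42.Hb.heil_coef h _ hcomm κ
  obtain ⟨e, he⟩ := hpart.exists_deg
  refine ⟨κ, hκ1, _, hpart, hv.part hκ2, ?_, hκ3, ?_, e, he, ?_, ?_⟩
  · intro z x
    have h1 := coef_translate' (fun a => θ ((Subgroup.center G).subtype a * x)) κ z
    unfold Pool.Agent.H72.Sol.part
    rw [← h1]
    congr 1
    funext a
    rw [map_mul]
    simp [mul_assoc]
  · intro T hT hZ V _ _ _ ρ
    let iT : Subgroup.center G →* T :=
      (Subgroup.center G).subtype.codRestrict T (fun a => hZ a.2)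
    have hinv : Inv iT κ := by
      intro g a
      refine ⟨a, Subtype.ext ?_, rfl⟩
      change (Subgroup.center G).subtype a = g * (Subgroup.center G).subtype a * (g : G)⁻¹
      rw [← hcomm, mul_inv_cancel_right]
    have h1 : ipF (fun t : T => part (Subgroup.center G).subtype κ θ t) ρ.character
        = ipF (part iT κ (fun t : T => θ t)) ρ.character := rfl
    rw [h1, ipF_part hinv]
    exact hsub T hT _ (isoRep hinv ρ)
  · rintro rfl
    apply hκ3
    have hz : part (Subgroup.center G).subtype κ θ = 0 := by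
      funext g
      have := Pool.Agent.H42.Hb.norm_le hpart he g
      rw [Nat.cast_zero] at this
      exact norm_le_zero_iff.1 this
    rw [hz]
    intro V _ _ _ ρ
    let _ : Fintype G := Fintype.ofFinite G
    rw [ipF_eq]
    unfold ip
    simp
  · have h1 : part (Subgroup.center G).subtype κ θ 1
        = (mult h (Subgroup.center G).subtype κ : ℂ) := by
      rw [← mult_spec h]
      unfold Pool.Agent.H72.Sol.part
      simp
    rw [he] at h1
    have h2 : e = mult h (Subgroup.center G).subtype κ := by exact_mod_cast h1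
    have h3 := sum_mult h (Subgroup.center G).subtype
    rw [hr] at h3
    have h4 : r = ∑ κ, mult h (Subgroup.center G).subtype κ := by exact_mod_cast h3
    rw [h2, h4]
    exact Finset.single_le_sum (f := fun κ => mult h (Subgroup.center G).subtype κ)
      (fun _ _ => Nat.zero_le _) (Finset.mem_univ κ)

/-- **Minimal bad sections**, with integrality. -/
theorem exists_minimal [Finite G] [Group.IsSolvable G] {θ : G → ℂ} (h : Heil θ) (hv : Vir θ)
    {r : ℕ} (hr : θ 1 = r) (hnp : ¬ Pos θ) :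
    ∃ (X : Type) (_ : Group X) (_ : Finite X) (_ : Group.IsSolvable X),
      Nat.card X ∣ Nat.card G ∧
      (∀ A : Subgroup X, A.Normal → Pool.Agent.H98.GL.IsComm A → A ≤ Subgroup.center X) ∧
      ∃ κ : Subgroup.center X →* ℂˣ, Function.Injective κ ∧ ∃ ϑ : X → ℂ, Heil ϑ ∧ Vir ϑ ∧
        (∀ (z : Subgroup.center X) x, ϑ (z * x) = ((κ z : ℂˣ) : ℂ) * ϑ x) ∧ ¬ Pos ϑ ∧
        (∀ T : Subgroup X, T ≠ ⊤ → Subgroup.center X ≤ T → Pos (fun t : T => ϑ t)) ∧
        ∃ e : ℕ, ϑ 1 = e ∧ e ≠ 0 ∧ e ≤ r := by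
  obtain ⟨K, X, _, _, _, _, f, p, hf, hp, hnp', hsub, hquot⟩ := exists_section hnp
  have hθ1 : Heil (defl p (fun k => θ (f k))) := heil_defl (h.comp f) hp
  have hv1 : Vir (defl p (fun k => θ (f k))) := (hv.comp h.conj f).defl hp
  obtain ⟨s, hs, hsr⟩ := deg_defl (h.comp f) hp (r := r) (by rw [map_one, hr])
  have hK : Group.IsSolvable K := Group.isSolvable_of_isSolvable_injective hf
  have hX : Group.IsSolvable X := Group.isSolvable_of_surjective hp
  obtain ⟨κ, hκ, ϑ, h1, h2, h3, h4, h5, e, h6, h7, h8⟩ :=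
    minimal_data' hθ1 hv1 hs hsub hquot hnp'
  refine ⟨X, inferInstance, inferInstance, hX,
    (Subgroup.card_dvd_of_surjective p hp).trans (Subgroup.card_dvd_of_injective f hf),
    (minimal_data hθ1 hs hsub hquot hnp').1, κ, hκ, ϑ, h1, h2, h3, h4, h5, e, h6, h7,
    h8.trans hsr⟩

end Pool.Agent.H31.Thr
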