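import Pool.Agent.H72.Sol.Minimal

/-!
Integral class functions, square norms, and the set of threshold numbers.
-/

open Finset

open scoped ComplexOrder

namespace Pool.Agent.H31.Thr

open Pool.Agent.H7.HB Pool.Agent.H7.Artin Pool.Agent.H72.Sol

set_option linter.unusedSectionVars false

variable {G : Type} [Group G]

/-- integral inner products with all characters -/
def Vir [Finite G] (θ : G → ℂ) : Prop :=
  ∀ (V : Type) [AddCommGroup V] [Module ℂ V] [FiniteDimensional ℂ V]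
    (ρ : Representation ℂ G V), ∃ n : ℤ, ipF θ ρ.character = n

/-- the normalised square norm of a function -/
noncomputable def nrm [Finite G] (θ : G → ℂ) : ℝ :=
  (Nat.card G : ℝ)⁻¹ * ∑ g ∈ @Finset.univ G (Fintype.ofFinite G), ‖θ g‖ ^ 2

theorem nrm_eq [Fintype G] (θ : G → ℂ) : nrm θ = (Nat.card G : ℝ)⁻¹ * ∑ g : G, ‖θ g‖ ^ 2 := by
  unfold nrm
  rw [Subsingleton.elim (Fintype.ofFinite G) ‹Fintype G›]

/-- The numbers which bound the degrees of Heilbronn class functions that are not characters, on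
solvable groups of order `m`. -/
def ThrNum (m t : ℕ) : Prop :=
  (∃ p n q : ℕ, p.Prime ∧ 1 ≤ n ∧ q.Prime ∧ Odd q ∧ q ∣ p ^ n + 1 ∧ q * p ^ (2 * n + 1) ∣ m ∧
    t = p ^ n) ∨
  (∃ p : ℕ, p.Prime ∧ p % 4 = 3 ∧ 4 * p ^ 3 ∣ m ∧ t = p) ∨
  (∃ p : ℕ, p.Prime ∧ p % 4 = 1 ∧ 8 * p ^ 3 ∣ m ∧ t = 2 * p) ∨
  (∃ p n q : ℕ, p.Prime ∧ p % 4 = 1 ∧ 1 ≤ n ∧ q.Prime ∧ Odd q ∧ q ∣ p ^ n - 1 ∧
    4 * q * p ^ (2 * n + 1) ∣ m ∧ t = 2 * p ^ n) ∨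
  (∃ n q : ℕ, 1 ≤ n ∧ q.Prime ∧ Odd q ∧ q ∣ 2 ^ n - 1 ∧ q * 2 ^ (2 * n + 2) ∣ m ∧
    t = 2 * 2 ^ n)

/-- a minimal threshold number -/
def MinThr (m t : ℕ) : Prop := ThrNum m t ∧ ∀ s, ThrNum m s → t ≤ s

theorem ThrNum.mono {m m' t : ℕ} (h : ThrNum m t) (hm : m ∣ m') : ThrNum m' t := by
  rcases h with ⟨p, n, q, h1, h2, h3, h4, h5, h6, h7⟩ | ⟨p, h1, h2, h3, h4⟩ | ⟨p, h1, h2, h3, h4⟩ |
    ⟨p, n, q, h1, h2, h3, h4, h5, h6, h7, h8⟩ | ⟨n, q, h1, h2, h3, h4, h5, h6⟩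
  · exact Or.inl ⟨p, n, q, h1, h2, h3, h4, h5, h6.trans hm, h7⟩
  · exact Or.inr (Or.inl ⟨p, h1, h2, h3.trans hm, h4⟩)
  · exact Or.inr (Or.inr (Or.inl ⟨p, h1, h2, h3.trans hm, h4⟩))
  · exact Or.inr (Or.inr (Or.inr (Or.inl ⟨p, n, q, h1, h2, h3, h4, h5, h6, h7.trans hm, h8⟩)))
  · exact Or.inr (Or.inr (Or.inr (Or.inr ⟨n, q, h1, h2, h3, h4, h5.trans hm, h6⟩)))

/-- there is a solvable group of order `m` with a Heilbronn class function of degree `t` which is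
not a character -/
def Bad (m t : ℕ) : Prop :=
  ∃ (G : Type) (_ : Group G) (_ : Finite G) (_ : Group.IsSolvable G) (θ : G → ℂ),
    Nat.card G = m ∧ Heil θ ∧ Vir θ ∧ θ 1 = t ∧ ¬ Pos θ

end Pool.Agent.H31.Thr
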