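import Pool.Agent.H31.Thr.Basic
import Pool.Agent.H42.Wilde.Char

/-!
The irreducible characters span the class functions.
-/

open Finset

open scoped ComplexOrder

namespace Pool.Agent.H31.Thr

open Pool.Agent.H7.HB Pool.Agent.H7.Artin Pool.Agent.H72.Sol

set_option linter.unusedSectionVars false

variable {G : Type} [Group G]

open Classical in
theorem ltr_char [Fintype G] (g : G) :
    (ltr G).character g = if g = 1 then (Nat.card G : ℂ) else 0 := by
  classical
  unfold Representation.character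
  rw [LinearMap.trace_eq_matrix_trace ℂ (Pi.basisFun ℂ G), Matrix.trace]
  have h1 : ∀ x : G, (LinearMap.toMatrix (Pi.basisFun ℂ G) (Pi.basisFun ℂ G) (ltr G g)).diag x
      = if g = 1 then 1 else 0 := by
    intro x
    rw [Matrix.diag_apply, LinearMap.toMatrix_apply]
    simp only [Pi.basisFun_apply, Pi.basisFun_repr, ltr_apply]
    by_cases hg : g = 1
    · subst hg
      simp
    · rw [if_neg hg, Pi.single_eq_of_ne]
      intro h
      apply hg
      have : g⁻¹ = 1 := by
        have h2 := congrArg (· * x⁻¹) h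
        simpa using h2
      exact inv_eq_one.1 this
  simp_rw [h1]
  by_cases hg : g = 1
  · simp [hg]
  · simp [hg]

section complete

variable [Fintype G] {f : G → ℂ}

/-- the operator attached to a function -/
noncomputable def opr (f : G → ℂ) {V : Type} [AddCommGroup V] [Module ℂ V]
    (ρ : Representation ℂ G V) : Module.End ℂ V := ∑ g : G, f g • ρ g⁻¹

theorem opr_trace (f : G → ℂ) {V : Type} [AddCommGroup V] [Module ℂ V]
    (ρ : Representation ℂ G V) :
    LinearMap.trace ℂ V (opr f ρ) = (Nat.card G : ℂ) * ip f ρ.character := by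
  unfold opr ip
  rw [map_sum, ← mul_assoc, mul_inv_cancel₀ card_cne, one_mul]
  refine Finset.sum_congr rfl fun g _ => ?_
  rw [map_smul, smul_eq_mul]
  rfl

theorem opr_comm (hc : ∀ g x, f (g * x * g⁻¹) = f x) {V : Type} [AddCommGroup V] [Module ℂ V]
    (ρ : Representation ℂ G V) (h : G) : Commute (opr f ρ) (ρ h) := by
  unfold opr
  change (∑ g : G, f g • ρ g⁻¹) * ρ h = ρ h * ∑ g : G, f g • ρ g⁻¹
  rw [Finset.sum_mul, Finset.mul_sum, ← Equiv.sum_comp (MulAut.conj h).toEquiv]
  refine Finset.sum_congr rfl fun g _ => ?_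
  change f (h * g * h⁻¹) • ρ (h * g * h⁻¹)⁻¹ * ρ h = ρ h * f g • ρ g⁻¹
  rw [hc, smul_mul_assoc, mul_smul_comm, ← map_mul, ← map_mul]
  congr 2
  group

theorem nilp (hc : ∀ g x, f (g * x * g⁻¹) = f x)
    (h0 : ∀ (V : Type) [AddCommGroup V] [Module ℂ V] [FiniteDimensional ℂ V]
      (ρ : Representation ℂ G V), ip f ρ.character = 0) : IsNilpotent (opr f (ltr G)) := by
  classical
  let T := opr f (ltr G)
  have key : ∀ μ : ℂ, μ ≠ 0 → T.maxGenEigenspace μ = ⊥ := by
    intro μ hμ
    let W := T.maxGenEigenspace μ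
    have hmem : ∀ g, ∀ w ∈ W, ltr G g w ∈ W := fun g =>
      Module.End.mapsTo_maxGenEigenspace_of_comm (opr_comm hc (ltr G) g) μ
    let σ : Representation ℂ G W :=
      { toFun := fun g => (ltr G g).restrict (hmem g)
        map_one' := by ext v; simp
        map_mul' := by intro a b; ext v; simp }
    have hT : ∀ w ∈ W, T w ∈ W := Module.End.mapsTo_maxGenEigenspace_of_comm (Commute.refl T) μ
    have h1 : opr f σ = T.restrict hT := by
      refine LinearMap.ext fun w => Subtype.ext ?_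
      rw [LinearMap.coe_restrict_apply]
      change ((opr f σ w : W) : G → ℂ) = opr f (ltr G) w
      unfold opr
      rw [LinearMap.sum_apply, LinearMap.sum_apply, AddSubmonoidClass.coe_finsetSum]
      rfl
    have h2 : LinearMap.trace ℂ W (T.restrict hT) = 0 := by
      rw [← h1, opr_trace, h0, mul_zero]
    have hS := Module.End.isNilpotent_restrict_maxGenEigenspace_sub_algebraMap T μ
    have h3 : T.restrict hT = (T - algebraMap ℂ (Module.End ℂ (G → ℂ)) μ).restrict
        (Module.End.mapsTo_maxGenEigenspace_of_comm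
          (Algebra.mul_sub_algebraMap_commutes T μ) μ) + μ • LinearMap.id := by
      refine LinearMap.ext fun w => Subtype.ext ?_
      simp [Module.algebraMap_end_apply]
    rw [h3, map_add, map_smul, (LinearMap.isNilpotent_trace_of_isNilpotent hS).eq_zero, zero_add,
      LinearMap.trace_id, smul_eq_mul] at h2
    rcases mul_eq_zero.1 h2 with h4 | h4
    · exact absurd h4 hμ
    · have h5 : Module.finrank ℂ W = 0 := by exact_mod_cast h4
      exact Submodule.finrank_eq_zero.1 h5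
  have htop := Module.End.iSup_maxGenEigenspace_eq_top T
  have h1 : T.maxGenEigenspace 0 = ⊤ := by
    rw [eq_top_iff, ← htop]
    refine iSup_le fun μ => ?_
    by_cases hμ : μ = 0
    · rw [hμ]
    · rw [key μ hμ]
      exact bot_le
  refine ⟨Module.finrank ℂ (G → ℂ), LinearMap.ext fun v => ?_⟩
  have h2 : v ∈ T.maxGenEigenspace 0 := by rw [h1]; exact Submodule.mem_top
  rw [Module.End.maxGenEigenspace_eq_genEigenspace_finrank, Module.End.mem_genEigenspace_nat] at h2
  simpa using h2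

/-- **Completeness.** -/
theorem eq_zero_of_ip (hc : ∀ g x, f (g * x * g⁻¹) = f x)
    (h0 : ∀ (V : Type) [AddCommGroup V] [Module ℂ V] [FiniteDimensional ℂ V]
      (ρ : Representation ℂ G V), ip f ρ.character = 0) : f = 0 := by
  classical
  obtain ⟨k, hk⟩ := nilp hc h0
  let T := opr f (ltr G)
  let S : Module.End ℂ (G → ℂ) := ∑ g : G, (starRingEnd ℂ (f g)) • ltr G g
  have hcomm : Commute S T := by
    refine Commute.sum_left _ _ _ fun g _ => ?_
    exact ((opr_comm hc (ltr G) g).symm).smul_left _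
  have hnil : IsNilpotent (S * T) := hcomm.isNilpotent_mul_left ⟨k, hk⟩
  have h1 := (LinearMap.isNilpotent_trace_of_isNilpotent hnil).eq_zero
  have h2 : LinearMap.trace ℂ (G → ℂ) (S * T) = (Nat.card G : ℂ) * ∑ g : G, starRingEnd ℂ (f g)
      * f g := by
    have h3 : S * T = ∑ g : G, ∑ h : G, (starRingEnd ℂ (f g) * f h) • ltr G (g * h⁻¹) := by
      change (∑ g : G, (starRingEnd ℂ (f g)) • ltr G g) * (∑ g : G, f g • ltr G g⁻¹) = _
      rw [Finset.sum_mul]
      refine Finset.sum_congr rfl fun g _ => ?_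
      rw [Finset.mul_sum]
      refine Finset.sum_congr rfl fun h _ => ?_
      rw [smul_mul_assoc, mul_smul_comm, smul_smul, map_mul]
    rw [h3, map_sum, Finset.mul_sum]
    refine Finset.sum_congr rfl fun g _ => ?_
    rw [map_sum, Finset.sum_eq_single g]
    · rw [map_smul, smul_eq_mul, mul_inv_cancel]
      have := ltr_char (1 : G)
      rw [if_pos rfl] at this
      unfold Representation.character at this
      rw [this, mul_comm]
    · intro h _ hne
      rw [map_smul, smul_eq_mul]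
      have := ltr_char (g * h⁻¹)
      rw [if_neg (fun h' => hne (mul_inv_eq_one.1 h').symm)] at this
      unfold Representation.character at this
      rw [this, mul_zero]
    · intro h
      exact absurd (Finset.mem_univ g) h
  rw [h2] at h1
  have h3 : ∑ g : G, starRingEnd ℂ (f g) * f g = 0 := (mul_eq_zero.1 h1).resolve_left card_cne
  have h4 : ∑ g : G, ‖f g‖ ^ 2 = 0 := by
    have h5 : ∀ g, starRingEnd ℂ (f g) * f g = ((‖f g‖ ^ 2 : ℝ) : ℂ) := by
      intro g
      rw [mul_comm, Complex.mul_conj, Complex.normSq_eq_norm_sq]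
    simp_rw [h5] at h3
    exact_mod_cast h3
  rw [Finset.sum_eq_zero_iff_of_nonneg (fun _ _ => by positivity)] at h4
  funext g
  have := h4 g (Finset.mem_univ g)
  simpa using this

end complete

/-- Induction over the irreducible constituents. -/
theorem char_induction [Finite G] {P : (G → ℂ) → Prop} (h0 : P 0)
    (hadd : ∀ χ₁ χ₂ : G → ℂ, P χ₁ → P χ₂ → P (fun g => χ₁ g + χ₂ g))
    (hirr : ∀ χ ∈ irrChars G, P χ) {V : Type} [AddCommGroup V] [Module ℂ V]
    [FiniteDimensional ℂ V] (ρ : Representation ℂ G V) : P ρ.character := by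
  classical
  let _ : Fintype G := Fintype.ofFinite G
  have key : ∀ (d : ℕ) (V : Type) [AddCommGroup V] [Module ℂ V] [FiniteDimensional ℂ V]
      (ρ : Representation ℂ G V), Module.finrank ℂ V = d → P ρ.character := by
    intro d
    induction d using Nat.strong_induction_on with
    | _ d ih =>
    intro V _ _ _ ρ hd
    by_cases h0' : Subsingleton V
    · have hchar : ρ.character = 0 := by
        ext g
        have : ρ g = 0 := by
          ext v
          exact Subsingleton.elim _ _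
        simp [Representation.character, this]
      rw [hchar]
      exact h0
    by_cases hi : ρ.IsIrreducible
    · exact hirr _ ⟨V, inferInstance, inferInstance, inferInstance, ρ, hi, rfl⟩
    · obtain ⟨W, hWb, hWt⟩ : ∃ W : Subrepresentation ρ, W ≠ ⊥ ∧ W ≠ ⊤ := by
        by_contra hcon
        push Not at hcon
        apply hi
        have hnt : Nontrivial (Subrepresentation ρ) := by
          refine ⟨⟨⊥, ⊤, fun h => h0' ?_⟩⟩
          have h2 : (⊥ : Submodule ℂ V) = ⊤ := congrArg Subrepresentation.toSubmodule h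
          exact (Submodule.subsingleton_iff ℂ).1 (subsingleton_of_bot_eq_top h2)
        exact { eq_bot_or_eq_top := fun W => by
                  by_cases hW : W = ⊥
                  · exact Or.inl hW
                  · exact Or.inr (hcon W hW) }
      obtain ⟨W', hW'⟩ := exists_isCompl W
      have hcompl : IsCompl W.toSubmodule W'.toSubmodule := by
        constructor
        · rw [disjoint_iff]
          have := congrArg Subrepresentation.toSubmodule (disjoint_iff.1 hW'.disjoint)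
          exact this
        · rw [codisjoint_iff]
          have := congrArg Subrepresentation.toSubmodule (codisjoint_iff.1 hW'.codisjoint)
          exact this
      let e := (Submodule.prodEquivOfIsCompl _ _ hcompl)
      let ρ₁ := W.toRepresentation
      let ρ₂ := W'.toRepresentation
      have hesymm : ∀ g (p : W.toSubmodule × W'.toSubmodule),
          e (ρ₁ g p.1, ρ₂ g p.2) = ρ g (e p) := by
        intro g p
        simp only [e, Submodule.coe_prodEquivOfIsCompl', map_add]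
        rfl
      have he : ∀ g v, e.symm (ρ g v) = (ρ₁ g (e.symm v).1, ρ₂ g (e.symm v).2) := by
        intro g v
        rw [LinearEquiv.symm_apply_eq, hesymm, LinearEquiv.apply_symm_apply]
      have hlt1 : Module.finrank ℂ W.toSubmodule < d := by
        rw [← hd]
        apply Submodule.finrank_lt
        intro h
        exact hWt (Subrepresentation.toSubmodule_injective h)
      have hW'b : W' ≠ ⊤ := by
        rintro rfl
        exact hWb (by simpa using hW'.disjoint)
      have hlt2 : Module.finrank ℂ W'.toSubmodule < d := by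
        rw [← hd]
        apply Submodule.finrank_lt
        intro h
        exact hW'b (Subrepresentation.toSubmodule_injective h)
      have hchar : ρ.character = fun g => ρ₁.character g + ρ₂.character g := by
        ext g
        unfold Representation.character
        rw [← LinearMap.trace_prodMap', ← LinearMap.trace_conj' (ρ g) e.symm]
        congr 1
        refine LinearMap.ext fun p => ?_
        simp only [LinearEquiv.conj_apply, LinearMap.comp_apply, LinearEquiv.coe_coe,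
          LinearEquiv.symm_symm, he, LinearEquiv.symm_apply_apply, LinearMap.prodMap_apply]
      rw [hchar]
      exact hadd _ _ (ih _ hlt1 _ ρ₁ rfl) (ih _ hlt2 _ ρ₂ rfl)
  exact key _ V ρ rfl

/-- Expansion in irreducible characters, with Parseval. -/
theorem exists_expand [Finite G] {θ : G → ℂ} (hc : ∀ g x, θ (g * x * g⁻¹) = θ x) :
    ∃ S : Finset (G → ℂ), (∀ χ, χ ∈ S ↔ χ ∈ irrChars G) ∧
      (∀ g, θ g = ∑ χ ∈ S, ipF θ χ * χ g) ∧ nrm θ = ∑ χ ∈ S, ‖ipF θ χ‖ ^ 2 := by
  classical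
  let _ : Fintype G := Fintype.ofFinite G
  let S : Finset (G → ℂ) := (irrChars_finite (G := G)).toFinset
  have hS : ∀ χ, χ ∈ S ↔ χ ∈ irrChars G := fun χ => by simp [S]
  have hexp : ∀ g, θ g = ∑ χ ∈ S, ipF θ χ * χ g := by
    let f : G → ℂ := fun g => θ g - ∑ χ ∈ S, ipF θ χ * χ g
    have hf : ∀ g x, f (g * x * g⁻¹) = f x := by
      intro g x
      change θ (g * x * g⁻¹) - ∑ χ ∈ S, ipF θ χ * χ (g * x * g⁻¹) = θ x - ∑ χ ∈ S, ipF θ χ * χ x
      rw [hc]
      congr 1
      refine Finset.sum_congr rfl fun χ hχ => ?_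
      rw [hS] at hχ
      obtain ⟨V, _, _, _, ρ, hρ, rfl⟩ := hχ
      rw [Representation.char_conj]
    have h0 : f = 0 := by
      refine eq_zero_of_ip hf fun V _ _ _ ρ => ?_
      refine char_induction (P := fun χ => ip f χ = 0) (by simp [ip]) ?_ ?_ ρ
      · intro χ₁ χ₂ h1 h2
        rw [ip_add_right, h1, h2, add_zero]
      · intro χ hχ
        have h1 : ip f χ = ip θ χ - ip (fun g => ∑ ψ ∈ S, ipF θ ψ * ψ g) χ := by
          unfold ip
          rw [← mul_sub, ← Finset.sum_sub_distrib]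
          congr 1
          refine Finset.sum_congr rfl fun g _ => ?_
          rw [← sub_mul]
        rw [h1, ip_sum S (fun ψ => ipF θ ψ) (fun ψ => ψ) χ, Finset.sum_eq_single χ]
        · rw [(ip_irr hχ hχ).1 rfl, mul_one, ipF_eq, sub_self]
        · intro ψ hψ hne
          rw [(ip_irr ((hS ψ).1 hψ) hχ).2 hne, mul_zero]
        · intro h
          exact absurd ((hS _).2 hχ) h
    intro g
    have := congrFun h0 g
    exact sub_eq_zero.1 this
  refine ⟨S, hS, hexp, ?_⟩
  have h1 : ((nrm θ : ℝ) : ℂ) = ∑ χ ∈ S, starRingEnd ℂ (ipF θ χ) * ipF θ χ := by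
    rw [nrm_eq]
    push_cast
    have h2 : ∀ g, ((‖θ g‖ : ℝ) : ℂ) ^ 2 = θ g * starRingEnd ℂ (θ g) := by
      intro g
      rw [Complex.mul_conj, Complex.normSq_eq_norm_sq]
      push_cast
      rfl
    have h3 : ∀ g, starRingEnd ℂ (θ g) = ∑ χ ∈ S, starRingEnd ℂ (ipF θ χ) * χ g⁻¹ := by
      intro g
      conv_lhs => rw [hexp g]
      rw [map_sum]
      refine Finset.sum_congr rfl fun χ hχ => ?_
      rw [hS] at hχ
      obtain ⟨V, _, _, _, ρ, hρ, rfl⟩ := hχ
      rw [map_mul, Pool.Agent.H42.Wilde.char_inv]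
    simp_rw [h2, h3, Finset.mul_sum]
    rw [Finset.sum_comm]
    refine Finset.sum_congr rfl fun χ _ => ?_
    have h4 : ipF θ χ = (Nat.card G : ℂ)⁻¹ * ∑ g, θ g * χ g⁻¹ := ipF_eq θ χ
    generalize starRingEnd ℂ (ipF θ χ) = c
    rw [h4, Finset.mul_sum, Finset.mul_sum]
    refine Finset.sum_congr rfl fun g _ => ?_
    ring
  have h2 : ∀ z : ℂ, starRingEnd ℂ z * z = ((‖z‖ ^ 2 : ℝ) : ℂ) := by
    intro z
    rw [mul_comm, Complex.mul_conj, Complex.normSq_eq_norm_sq]
  simp_rw [h2] at h1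
  rw [← Complex.ofReal_sum] at h1
  exact_mod_cast h1

theorem irr_one {χ : G → ℂ} (hχ : χ ∈ irrChars G) : ∃ d : ℕ, 1 ≤ d ∧ χ 1 = d := by
  obtain ⟨V, _, _, _, ρ, hρ, rfl⟩ := hχ
  refine ⟨Module.finrank ℂ V, ?_, Representation.char_one ρ⟩
  have : Nontrivial V := by
    by_contra hcon
    rw [not_nontrivial_iff_subsingleton] at hcon
    have h1 := hρ.exists_pair_ne
    obtain ⟨a, b, hab⟩ := h1
    apply hab
    apply Subrepresentation.toSubmodule_injective
    ext x
    rw [Subsingleton.elim x 0]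
    simp
  exact Module.finrank_pos

theorem vir_irr [Finite G] {θ : G → ℂ} (hv : Vir θ) {χ : G → ℂ} (hχ : χ ∈ irrChars G) :
    ∃ n : ℤ, ipF θ χ = n := by
  obtain ⟨V, _, _, _, ρ, hρ, rfl⟩ := hχ
  exact hv V ρ

theorem pos_irr [Finite G] {θ : G → ℂ} (hv : Pos θ) {χ : G → ℂ} (hχ : χ ∈ irrChars G) :
    0 ≤ ipF θ χ := by
  obtain ⟨V, _, _, _, ρ, hρ, rfl⟩ := hχ
  exact hv V ρ

/-- positivity on irreducible characters suffices -/
theorem pos_of_irr [Finite G] {θ : G → ℂ} (h : ∀ χ ∈ irrChars G, 0 ≤ ipF θ χ) : Pos θ := by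
  let _ : Fintype G := Fintype.ofFinite G
  intro V _ _ _ ρ
  refine char_induction (P := fun χ => 0 ≤ ipF θ χ) ?_ ?_ h ρ
  · rw [ipF_eq]
    simp [ip]
  · intro χ₁ χ₂ h1 h2
    rw [ipF_eq] at h1 h2 ⊢
    rw [ip_add_right]
    exact add_nonneg h1 h2

theorem pos_of_nrm_one [Finite G] {θ : G → ℂ} (hc : ∀ g x, θ (g * x * g⁻¹) = θ x)
    (hv : Vir θ) (hn : nrm θ = 1) {e : ℕ} (he : θ 1 = e) (he0 : e ≠ 0) : Pos θ := by
  classical
  obtain ⟨S, hS, hexp, hpar⟩ := exists_expand hc
  have hint : ∀ χ ∈ S, ∃ n : ℤ, ipF θ χ = n := fun χ hχ => vir_irr hv ((hS χ).1 hχ)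
  choose! n hn' using hint
  have h1 : ∑ χ ∈ S, (n χ) ^ 2 = 1 := by
    have h2 : ((∑ χ ∈ S, (n χ) ^ 2 : ℤ) : ℝ) = 1 := by
      rw [← hn, hpar]
      push_cast
      refine Finset.sum_congr rfl fun χ hχ => ?_
      rw [hn' χ hχ, Complex.norm_intCast, sq_abs]
    exact_mod_cast h2
  -- a single constituent
  obtain ⟨χ₀, hχ₀, hne⟩ : ∃ χ ∈ S, n χ ≠ 0 := by
    by_contra hcon
    push Not at hcon
    rw [Finset.sum_eq_zero (fun χ hχ => by rw [hcon χ hχ]; rfl)] at h1
    exact absurd h1 (by norm_num)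
  have h2 : ∀ χ ∈ S, χ ≠ χ₀ → n χ = 0 := by
    intro χ hχ hne'
    have h3 : (n χ₀) ^ 2 + (n χ) ^ 2 ≤ ∑ χ ∈ S, (n χ) ^ 2 := by
      have h4 : ∑ χ ∈ ({χ₀, χ} : Finset (G → ℂ)), (n χ) ^ 2 ≤ ∑ χ ∈ S, (n χ) ^ 2 :=
        Finset.sum_le_sum_of_subset_of_nonneg (by
          intro ψ hψ
          rw [Finset.mem_insert, Finset.mem_singleton] at hψ
          rcases hψ with rfl | rfl
          · exact hχ₀
          · exact hχ) (fun _ _ _ => sq_nonneg _)
      rwa [Finset.sum_pair hne'.symm] at h4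
    rw [h1] at h3
    have h5 : 1 ≤ (n χ₀) ^ 2 := by
      have := sq_nonneg (n χ₀)
      have h6 : (n χ₀) ^ 2 ≠ 0 := pow_ne_zero 2 hne
      omega
    have h7 := sq_nonneg (n χ)
    have h8 : (n χ) ^ 2 = 0 := by omega
    exact pow_eq_zero_iff (two_ne_zero) |>.1 h8
  have h3 : θ 1 = (n χ₀ : ℂ) * χ₀ 1 := by
    rw [hexp 1, Finset.sum_eq_single χ₀]
    · rw [hn' χ₀ hχ₀]
    · intro χ hχ hne'
      rw [hn' χ hχ, h2 χ hχ hne', Int.cast_zero, zero_mul]
    · intro h
      exact absurd hχ₀ h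
  obtain ⟨d, hd, hd'⟩ := irr_one ((hS χ₀).1 hχ₀)
  have h4 : 0 < n χ₀ := by
    rw [he, hd'] at h3
    have h5 : (e : ℤ) = n χ₀ * d := by exact_mod_cast h3
    have h6 : 0 < (e : ℤ) := by exact_mod_cast Nat.pos_of_ne_zero he0
    by_contra hcon
    push Not at hcon
    have h7 : n χ₀ * (d : ℤ) ≤ 0 := mul_nonpos_of_nonpos_of_nonneg hcon (by positivity)
    omega
  refine pos_of_irr fun χ hχ => ?_
  rw [← hS] at hχ
  rw [hn' χ hχ]
  by_cases hne' : χ = χ₀
  · rw [hne']
    exact_mod_cast h4.le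
  · rw [h2 χ hχ hne']
    simp

theorem ip_add_left [Fintype G] (f f₁ f₂ : G → ℂ) :
    ip (fun g => f₁ g + f₂ g) f = ip f₁ f + ip f₂ f := by
  unfold ip
  rw [← mul_add, ← Finset.sum_add_distrib]
  simp_rw [add_mul]

/-- inner products of characters are natural numbers -/
theorem ip_char_nat [Fintype G] {V W : Type} [AddCommGroup V] [Module ℂ V]
    [FiniteDimensional ℂ V] [AddCommGroup W] [Module ℂ W] [FiniteDimensional ℂ W]
    (ρ : Representation ℂ G V) (σ : Representation ℂ G W) :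
    ∃ k : ℕ, ip ρ.character σ.character = k := by
  classical
  refine char_induction (P := fun χ => ∃ k : ℕ, ip ρ.character χ = k) ?_ ?_ ?_ σ
  · exact ⟨0, by simp [ip]⟩
  · rintro χ₁ χ₂ ⟨k, hk⟩ ⟨l, hl⟩
    exact ⟨k + l, by rw [ip_add_right, hk, hl]; push_cast; ring⟩
  · intro χ hχ
    refine char_induction (P := fun ψ => ∃ k : ℕ, ip ψ χ = k) ?_ ?_ ?_ ρ
    · exact ⟨0, by simp [ip]⟩
    · rintro χ₁ χ₂ ⟨k, hk⟩ ⟨l, hl⟩
      exact ⟨k + l, by rw [ip_add_left, hk, hl]; push_cast; ring⟩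
    · intro ψ hψ
      by_cases h : ψ = χ
      · exact ⟨1, by rw [(ip_irr hψ hχ).1 h]; simp⟩
      · exact ⟨0, by rw [(ip_irr hψ hχ).2 h]; simp⟩

/-- a character which has square norm one on a subgroup has square norm one -/
theorem nrm_one_of_sub [Finite G] {θ : G → ℂ} (hc : ∀ g x, θ (g * x * g⁻¹) = θ x)
    (hv : Vir θ) (hp : Pos θ) (N : Subgroup G) (hn : nrm (fun x : N => θ x) = 1) :
    nrm θ = 1 := by
  classical
  let _ : Fintype G := Fintype.ofFinite G
  let _ : Fintype N := Fintype.ofFinite N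
  obtain ⟨S, hS, hexp, hpar⟩ := exists_expand hc
  have hint : ∀ χ ∈ S, ∃ n : ℕ, ipF θ χ = n := by
    intro χ hχ
    obtain ⟨n, hn⟩ := vir_irr hv ((hS χ).1 hχ)
    have h1 := pos_irr hp ((hS χ).1 hχ)
    rw [hn] at h1
    have h2 : 0 ≤ n := by exact_mod_cast h1
    obtain ⟨k, rfl⟩ := Int.eq_ofNat_of_zero_le h2
    exact ⟨k, by rw [hn]; simp⟩
  choose! n hn' using hint
  -- the square norm on the subgroup
  have h1 : ((nrm (fun x : N => θ x) : ℝ) : ℂ) = ∑ χ ∈ S, ∑ ψ ∈ S, (n χ : ℂ) * (n ψ : ℂ)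
      * ip (fun x : N => χ x) (fun x : N => ψ x) := by
    rw [nrm_eq]
    push_cast
    have h2 : ∀ x : N, ((‖θ x‖ : ℝ) : ℂ) ^ 2 = ∑ χ ∈ S, ∑ ψ ∈ S, (n χ : ℂ) * (n ψ : ℂ)
        * (χ (x : G) * ψ ((x⁻¹ : N) : G)) := by
      intro x
      have h3 : ((‖θ x‖ : ℝ) : ℂ) ^ 2 = θ x * starRingEnd ℂ (θ x) := by
        rw [Complex.mul_conj, Complex.normSq_eq_norm_sq]
        push_cast
        rfl
      have h4 : starRingEnd ℂ (θ x) = ∑ ψ ∈ S, (n ψ : ℂ) * ψ ((x⁻¹ : N) : G) := by
        rw [hexp x, map_sum]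
        refine Finset.sum_congr rfl fun χ hχ => ?_
        rw [hn' χ hχ, map_mul, Complex.conj_natCast, InvMemClass.coe_inv]
        rw [hS] at hχ
        obtain ⟨V, _, _, _, ρ, hρ, rfl⟩ := hχ
        rw [Pool.Agent.H42.Wilde.char_inv]
      have h5 : θ x = ∑ χ ∈ S, (n χ : ℂ) * χ x := by
        rw [hexp x]
        exact Finset.sum_congr rfl fun χ hχ => by rw [hn' χ hχ]
      rw [h3, h4, h5, Finset.sum_mul]
      refine Finset.sum_congr rfl fun χ _ => ?_
      rw [Finset.mul_sum]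
      refine Finset.sum_congr rfl fun ψ _ => ?_
      ring
    simp_rw [h2]
    rw [Finset.sum_comm, Finset.mul_sum]
    refine Finset.sum_congr rfl fun χ _ => ?_
    rw [Finset.sum_comm, Finset.mul_sum]
    refine Finset.sum_congr rfl fun ψ _ => ?_
    unfold ip
    rw [← Finset.mul_sum]
    ring
  have h2 : ∀ χ ∈ S, ∀ ψ ∈ S, ∃ k : ℕ, ip (fun x : N => χ x) (fun x : N => ψ x) = k ∧
      (χ = ψ → 1 ≤ k) := by
    intro χ hχ ψ hψ
    rw [hS] at hχ hψ
    obtain ⟨V, _, _, _, ρ, hρ, rfl⟩ := hχ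
    obtain ⟨W, _, _, _, σ, hσ, rfl⟩ := hψ
    obtain ⟨k, hk⟩ := ip_char_nat (ρ.comp N.subtype) (σ.comp N.subtype)
    refine ⟨k, hk, fun heq => ?_⟩
    rw [Nat.one_le_iff_ne_zero]
    rintro rfl
    have h3 : ip (fun x : N => ρ.character x) (fun x : N => σ.character x) = (0 : ℕ) := hk
    rw [← heq] at h3
    unfold ip at h3
    rw [Nat.cast_zero] at h3
    have h4 := (mul_eq_zero.1 h3).resolve_left (inv_ne_zero card_cne)
    have h5 : ∑ x : N, ‖ρ.character (x : G)‖ ^ 2 = 0 := by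
      have h6 : ∀ x : N, ρ.character (x : G) * ρ.character ((x⁻¹ : N) : G)
          = ((‖ρ.character (x : G)‖ ^ 2 : ℝ) : ℂ) := by
        intro x
        rw [InvMemClass.coe_inv, Pool.Agent.H42.Wilde.char_inv, Complex.mul_conj,
          Complex.normSq_eq_norm_sq]
      simp_rw [h6] at h4
      exact_mod_cast h4
    rw [Finset.sum_eq_zero_iff_of_nonneg (fun _ _ => by positivity)] at h5
    have h6 := h5 1 (Finset.mem_univ 1)
    rw [OneMemClass.coe_one] at h6
    have h7 : ρ.character 1 = 0 := by simpa using h6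
    obtain ⟨d, hd1, hd2⟩ := irr_one (χ := ρ.character)
      ⟨V, inferInstance, inferInstance, inferInstance, ρ, hρ, rfl⟩
    rw [h7] at hd2
    have : d = 0 := by exact_mod_cast hd2.symm
    omega
  choose! k hk1 hk2 using h2
  have h3 : ∑ χ ∈ S, ∑ ψ ∈ S, n χ * n ψ * k χ ψ = 1 := by
    have h4 : ((∑ χ ∈ S, ∑ ψ ∈ S, n χ * n ψ * k χ ψ : ℕ) : ℂ) = 1 := by
      push_cast
      rw [hn] at h1
      rw [← Complex.ofReal_one, h1]
      refine Finset.sum_congr rfl fun χ hχ => Finset.sum_congr rfl fun ψ hψ => ?_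
      rw [hk1 χ hχ ψ hψ]
    exact_mod_cast h4
  have h4 : ∑ χ ∈ S, n χ ^ 2 ≤ 1 := by
    rw [← h3]
    refine Finset.sum_le_sum fun χ hχ => ?_
    have h5 := hk2 χ hχ χ hχ rfl
    calc n χ ^ 2 = n χ * n χ * 1 := by ring
      _ ≤ n χ * n χ * k χ χ := Nat.mul_le_mul_left _ h5
      _ ≤ ∑ ψ ∈ S, n χ * n ψ * k χ ψ :=
        Finset.single_le_sum (f := fun ψ => n χ * n ψ * k χ ψ) (fun _ _ => Nat.zero_le _) hχ
  have h5 : ∑ χ ∈ S, n χ ^ 2 ≠ 0 := by
    intro h6
    rw [Finset.sum_eq_zero_iff] at h6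
    have h7 : ∑ χ ∈ S, ∑ ψ ∈ S, n χ * n ψ * k χ ψ = 0 := by
      refine Finset.sum_eq_zero fun χ hχ => Finset.sum_eq_zero fun ψ _ => ?_
      rw [pow_eq_zero_iff two_ne_zero |>.1 (h6 χ hχ)]
      ring
    omega
  have h6 : ∑ χ ∈ S, n χ ^ 2 = 1 := by omega
  rw [hpar]
  calc ∑ χ ∈ S, ‖ipF θ χ‖ ^ 2 = ∑ χ ∈ S, (n χ : ℝ) ^ 2 := by
        refine Finset.sum_congr rfl fun χ hχ => ?_
        rw [hn' χ hχ, Complex.norm_natCast]
    _ = ((∑ χ ∈ S, n χ ^ 2 : ℕ) : ℝ) := by push_cast; rfl
    _ = 1 := by rw [h6]; norm_num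

/-- a nonnegative combination of characters of degree at least `θ 1` has square norm at most
one -/
theorem nrm_le_one [Finite G] {θ : G → ℂ} (hc : ∀ g x, θ (g * x * g⁻¹) = θ x)
    (hp : Pos θ) {e : ℕ} (he : θ 1 = e) (he0 : e ≠ 0)
    (hd : ∀ (V : Type) [AddCommGroup V] [Module ℂ V] [FiniteDimensional ℂ V]
      (ρ : Representation ℂ G V), ρ.IsIrreducible → ipF θ ρ.character ≠ 0 →
      e ≤ Module.finrank ℂ V) : nrm θ ≤ 1 := by
  classical
  obtain ⟨S, hS, hexp, hpar⟩ := exists_expand hc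
  have hre : ∀ χ ∈ S, 0 ≤ (ipF θ χ).re ∧ ipF θ χ = ((ipF θ χ).re : ℂ) := by
    intro χ hχ
    have h1 := Complex.le_def.1 (pos_irr hp ((hS χ).1 hχ))
    refine ⟨by simpa using h1.1, Complex.ext (by simp) ?_⟩
    have := h1.2
    simp at this
    simp [← this]
  have h1 : ∑ χ ∈ S, (ipF θ χ).re ≤ 1 := by
    have h2 : (e : ℝ) * ∑ χ ∈ S, (ipF θ χ).re ≤ e := by
      have h3 : ((e : ℝ) : ℂ) = ∑ χ ∈ S, ipF θ χ * χ 1 := by
        rw [← hexp 1, he]
        simp
      have h4 := congrArg Complex.re h3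
      rw [Complex.ofReal_re, Complex.re_sum] at h4
      conv_rhs => rw [h4]
      rw [Finset.mul_sum]
      refine Finset.sum_le_sum fun χ hχ => ?_
      obtain ⟨h5, h6⟩ := hre χ hχ
      obtain ⟨d, hd1, hd2⟩ := irr_one ((hS χ).1 hχ)
      rw [hd2, h6]
      rw [← Complex.ofReal_natCast, ← Complex.ofReal_mul, Complex.ofReal_re, Complex.ofReal_re]
      by_cases h0 : (ipF θ χ).re = 0
      · rw [h0]; simp
      · have h7 : (e : ℝ) ≤ d := by
          have h8 := (hS χ).1 hχ
          obtain ⟨V, _, _, _, ρ, hρ, rfl⟩ := h8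
          have h9 := hd V ρ hρ (by
            intro h10
            apply h0
            rw [h10]
            simp)
          rw [Representation.char_one] at hd2
          have h11 : Module.finrank ℂ V = d := by exact_mod_cast hd2
          rw [← h11]
          exact_mod_cast h9
        nlinarith
    have h3 : (0 : ℝ) < e := by exact_mod_cast Nat.pos_of_ne_zero he0
    by_contra hcon
    push Not at hcon
    nlinarith
  rw [hpar]
  calc ∑ χ ∈ S, ‖ipF θ χ‖ ^ 2 = ∑ χ ∈ S, (ipF θ χ).re ^ 2 := by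
        refine Finset.sum_congr rfl fun χ hχ => ?_
        obtain ⟨h5, h6⟩ := hre χ hχ
        conv_lhs => rw [h6]
        rw [Complex.norm_real, Real.norm_eq_abs, sq_abs]
    _ ≤ (∑ χ ∈ S, (ipF θ χ).re) ^ 2 := Finset.sum_sq_le_sq_sum_of_nonneg (fun χ hχ => (hre χ hχ).1)
    _ ≤ 1 := by
        have h2 : 0 ≤ ∑ χ ∈ S, (ipF θ χ).re := Finset.sum_nonneg fun χ hχ => (hre χ hχ).1
        nlinarith

end Pool.Agent.H31.Thr
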